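import Pool.Agent.H438R2.RZ.Core

/-!
# MP_ee74d2_an: the Bochner-Riesz estimate in the full range for block radial functions

The Bochner-Riesz estimate in its full conjectured range (in the problem file it is listed among the
consequences of Q1) holds for the functions `f` on `ℝ^n = ℝ^k × ℝ^m`, `n = k + m ≥ 3`, `k, m ≥ 1`, which are
of the form `g(|x'|, |x''|)`, or, if `m = 1`, of the more general form `g(|x'|, x_n)`, without any
condition on the dependence on these two variables: for all `1 < p < ∞` and all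
`δ > max (0, n |1/2 - 1/p| - 1/2)` the operator with the multiplier `(1 - |ξ|²)_+ ^ δ` is bounded in
`L^p` on these functions.

Source: project `Pool.Agent.H438R2.RZ` of the starting library, never handed in.
-/

set_option autoImplicit false

open MeasureTheory
open scoped ENNReal RealInnerProductSpace

namespace Pool.Agent.Results.MP_ee74d2_an.BlockRadialBochnerRiesz

/-- `ℝ^n` -/
abbrev E (n : ℕ) : Type := EuclideanSpace ℝ (Fin n)

/-- The character `exp (2 π i t)`. -/
noncomputable def char (t : ℝ) : ℂ := Complex.exp (((2 * Real.pi * t : ℝ) : ℂ) * Complex.I)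

/-- The Bochner-Riesz operator of order `δ`: the inverse Fourier transform of
`(1 - |ξ|²)_+ ^ δ f^(ξ)`, where `f^(ξ) = ∫ exp (- 2 π i y ξ) f(y) dy`. -/
noncomputable def bochnerRiesz {n : ℕ} (δ : ℝ) (f : E n → ℂ) (x : E n) : ℂ :=
  ∫ ξ : E n, (((max (1 - ‖ξ‖ ^ 2) 0) ^ δ : ℝ) : ℂ) *
    (∫ y : E n, char (-(⟪y, ξ⟫ : ℝ)) * f y) * char (⟪x, ξ⟫ : ℝ)

/-- The square of the length of the first block `x'` of `x = (x', x'')`. -/
noncomputable def firstSq {k m : ℕ} (x : E (k + m)) : ℝ := ∑ i : Fin k, (x (Fin.castAdd m i)) ^ 2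

/-- The square of the length of the second block `x''` of `x = (x', x'')`. -/
noncomputable def secondSq {k m : ℕ} (x : E (k + m)) : ℝ := ∑ i : Fin m, (x (Fin.natAdd k i)) ^ 2

/-- `f(x)` depends on `|x'|` and `|x''|` only; if `m = 1`, on `|x'|` and on the last coordinate only. -/
def BlockRadial (k m : ℕ) (f : E (k + m) → ℂ) : Prop :=
  ∀ x y : E (k + m), firstSq x = firstSq y → secondSq x = secondSq y →
    (m = 1 → ∀ i : Fin m, x (Fin.natAdd k i) = y (Fin.natAdd k i)) → f x = f y

/-- **Main theorem.** -/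
theorem result (k m : ℕ) (hk : 1 ≤ k) (hm : 1 ≤ m) (hkm : 3 ≤ k + m) (p δ : ℝ) (hp : 1 < p)
    (hδ : 0 < δ) (hδ2 : ((k + m : ℕ) : ℝ) * |1 / 2 - 1 / p| - 1 / 2 < δ) :
    ∃ C : ℝ, ∀ f : SchwartzMap (E (k + m)) ℂ, BlockRadial k m (fun x => f x) →
      eLpNorm (bochnerRiesz δ (fun x : E (k + m) => f x)) (ENNReal.ofReal p) volume ≤
        ENNReal.ofReal C * eLpNorm (fun x : E (k + m) => f x) (ENNReal.ofReal p) volume := by
  obtain ⟨C, hC⟩ := Pool.Agent.H438R2.RZ.CoreAux.main k m hk hm hkm p δ hp hδ hδ2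
  exact ⟨C, fun f hf => hC f hf⟩

end Pool.Agent.Results.MP_ee74d2_an.BlockRadialBochnerRiesz
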