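import Pool.Agent.V11293.CS.B
import Pool.Agent.TH280.BR.K2
import Pool.Agent.TH228.BRM_TBP
import Pool.Agent.TH828.BRM_TB2
import Pool.Agent.TH543.BRM_TB4
import Pool.Agent.TH400.LS_E4
import Pool.Agent.TH807.LS_CL
import Pool.Agent.TH89.LS_F
set_option autoImplicit false

/-! # The Bochner-Riesz estimate for functions which are piecewise monotone in `n - 2` variables

The local smoothing estimate of Q1 implies the Bochner-Riesz conjecture in the same dimension. This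
file proves the Bochner-Riesz estimate in every dimension `n = m + 2 ≥ 2`, for all `δ > 0` and all
`2 ≤ p ≤ 4` (in particular in the whole critical range `2 ≤ p ≤ 2n/(n-1)` of the conjecture), for
all functions which in some orthonormal coordinates are products
`b(x) F_1(x,y_1) ⋯ F_{n-2}(x,y_{n-2})` with `x ∈ ℝ²` and `F_i(x,·)` piecewise monotone; the
dependence on the two variables `x` is arbitrary. For `n = 2` there is no condition.
-/

open MeasureTheory Set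
open scoped ENNReal FourierTransform RealInnerProductSpace

namespace Pool.Agent.Results.MP_ee74d2_an.BochnerRieszMonotone

/-- `ℝ^n` -/
abbrev E (n : ℕ) : Type := EuclideanSpace ℝ (Fin n)

/-- The Bochner-Riesz mean of order `δ`: the inverse Fourier transform of
`(1 - |ζ|²)_+^δ f^(ζ)`. -/
noncomputable def bochnerRiesz {n : ℕ} (δ : ℝ) (f : E n → ℂ) (z : E n) : ℂ :=
  ∫ ζ : E n, Complex.exp (((2 * Real.pi * ⟪z, ζ⟫ : ℝ) : ℂ) * Complex.I) *
    ((((max (1 - ‖ζ‖ ^ 2) 0) ^ δ : ℝ) : ℂ) * 𝓕 f ζ)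

/-- `F` is piecewise monotone with `k` pieces: the line is the union of `k` pairwise disjoint
intervals (of any kind, possibly empty) on each of which `F` is nondecreasing or nonincreasing. -/
def PiecewiseMonotone (k : ℕ) (F : ℝ → ℝ) : Prop :=
  ∃ I : Fin k → Set ℝ, (∀ i, (I i).OrdConnected) ∧ Pairwise (Function.onFun Disjoint I) ∧
    (⋃ i, I i) = Set.univ ∧ ∀ i, MonotoneOn F (I i) ∨ AntitoneOn F (I i)

/-- The class of functions on `ℝ^(m+2)`: for some orthonormal basis `v_0, …, v_{m+1}`, with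
`x = (⟨v_{m+1}, z⟩, ⟨v_m, z⟩)` and `y_i = ⟨v_i, z⟩` for `i < m`, one has
`f(z) = b(x) ∏_{i<m} F_i(x, y_i)`, where `b` is any complex function of two variables, and
`F_i(x, ·)` is piecewise monotone with `k` pieces for all `i` and `x`. -/
def Data (m k : ℕ) (f : E (m + 2) → ℂ) : Prop :=
  ∃ (v : OrthonormalBasis (Fin (m + 2)) ℝ (E (m + 2))) (b : ℝ × ℝ → ℂ)
    (F : Fin m → ℝ × ℝ → ℝ → ℝ), (∀ i x, PiecewiseMonotone k (F i x)) ∧
    ∀ z, f z = b ((⟪v (Fin.last (m + 1)), z⟫ : ℝ), (⟪v (Fin.last m).castSucc, z⟫ : ℝ)) *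
      ∏ i : Fin m, ((F i ((⟪v (Fin.last (m + 1)), z⟫ : ℝ), (⟪v (Fin.last m).castSucc, z⟫ : ℝ))
        (⟪v i.castSucc.castSucc, z⟫ : ℝ) : ℝ) : ℂ)

/-- **The Bochner-Riesz estimate for piecewise monotone functions.** Let `n = m + 2 ≥ 2`, `δ > 0`,
`2 ≤ p ≤ 4` and `k ∈ ℕ`. There is a constant `C` such that for all integrable functions `f` in the
class `Data m k` one has `∫ |S^δ f|^p ≤ C ∫ |f|^p`. -/
theorem result (m k : ℕ) (δ p : ℝ) (hδ : 0 < δ) (hp : 2 ≤ p) (hp4 : p ≤ 4) :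
    ∃ C : ℝ, 0 < C ∧ ∀ f : E (m + 2) → ℂ, Integrable f → Data m k f →
      ∫⁻ z, ‖bochnerRiesz δ f z‖ₑ ^ p ≤ ENNReal.ofReal C * ∫⁻ z, ‖f z‖ₑ ^ p := by
  have hTBP : Pool.Agent.TH280.BR.S_TBP := Pool.Agent.TH228.TBP.tbp_thm
    Pool.Agent.TH828.TB2.tb2_thm (Pool.Agent.TH543.TB4.tb4_thm Pool.Agent.V11293.CS.pl)
  have hCL : Pool.Agent.TH280.LS.S_CL :=
    Pool.Agent.TH807.CL.cl_thm Pool.Agent.TH89.F.f_thm
  obtain ⟨C, hC, h⟩ := Pool.Agent.TH280.BR.br_A hTBP Pool.Agent.TH400.E4.e4_thm hCL m k δ p hδ hp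
    hp4
  refine ⟨C, hC, fun f hf hd => ?_⟩
  exact h f hf hd

end Pool.Agent.Results.MP_ee74d2_an.BochnerRieszMonotone
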