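import Pool.Agent.V11293.CS.B
import Pool.Agent.TH280.BR.K2
import Pool.Agent.TH228.BRM_TBP
import Pool.Agent.TH828.BRM_TB2
import Pool.Agent.TH543.BRM_TB4
import Pool.Agent.TH883.LS.LSB_E4R
import Pool.Agent.TH883.LS.LSB_BALL
import Pool.Agent.TH554.LSB_CLR
set_option autoImplicit false

/-! # The Bochner-Riesz estimate for functions with radially decreasing slices

The local smoothing estimate of Q1 implies the Bochner-Riesz conjecture in the same dimension. This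
file proves the Bochner-Riesz estimate in dimension `n = m + 2 ≥ 4` for all `δ > 0` and all
`2 ≤ p ≤ 4` with `p < 2(n-2)/(n-3)` (this contains `2 ≤ p ≤ 2n/(n-1)`, the critical range of the
conjecture, for all `n ≥ 4`), for all functions whose restrictions to the `(n-2)`-planes parallel to
a fixed one are multiples of nonincreasing functions of the distance to a point. The point, the
profile and the factor depend on the plane in an arbitrary way.
-/

open MeasureTheory Set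
open scoped ENNReal FourierTransform RealInnerProductSpace

namespace Pool.Agent.Results.MP_ee74d2_an.BochnerRieszRadialSlices

/-- `ℝ^n` -/
abbrev E (n : ℕ) : Type := EuclideanSpace ℝ (Fin n)

/-- The Bochner-Riesz mean of order `δ`: the inverse Fourier transform of
`(1 - |ζ|²)_+^δ f^(ζ)`. -/
noncomputable def bochnerRiesz {n : ℕ} (δ : ℝ) (f : E n → ℂ) (z : E n) : ℂ :=
  ∫ ζ : E n, Complex.exp (((2 * Real.pi * ⟪z, ζ⟫ : ℝ) : ℂ) * Complex.I) *
    ((((max (1 - ‖ζ‖ ^ 2) 0) ^ δ : ℝ) : ℂ) * 𝓕 f ζ)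

/-- The class of functions on `ℝ^(m+2)`: for some orthonormal basis `v_0, …, v_{m+1}`, with
`x = (⟨v_{m+1}, z⟩, ⟨v_m, z⟩)` and `y_i = ⟨v_i, z⟩` for `i < m`, one has
`f(z) = b(x) F_x(|y - c(x)|)`, where `F_x` is nonincreasing on `[0, ∞)` for all `x`; the factor `b`,
the centre `c` and the profile `F` are arbitrary functions of `x`. -/
def Data (m : ℕ) (f : E (m + 2) → ℂ) : Prop :=
  ∃ (v : OrthonormalBasis (Fin (m + 2)) ℝ (E (m + 2))) (b : ℝ × ℝ → ℂ)
    (c : ℝ × ℝ → Fin m → ℝ) (F : ℝ × ℝ → ℝ → ℝ), (∀ x, AntitoneOn (F x) (Ici 0)) ∧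
    ∀ z, f z = b ((⟪v (Fin.last (m + 1)), z⟫ : ℝ), (⟪v (Fin.last m).castSucc, z⟫ : ℝ)) *
      ((F ((⟪v (Fin.last (m + 1)), z⟫ : ℝ), (⟪v (Fin.last m).castSucc, z⟫ : ℝ))
        (Real.sqrt (∑ i : Fin m, ((⟪v i.castSucc.castSucc, z⟫ : ℝ) -
          c ((⟪v (Fin.last (m + 1)), z⟫ : ℝ), (⟪v (Fin.last m).castSucc, z⟫ : ℝ)) i) ^ 2)) : ℝ)
            : ℂ)

/-- **The Bochner-Riesz estimate for functions with radially decreasing slices.** Let
`n = m + 2 ≥ 4`, `δ > 0`, `2 ≤ p ≤ 4` and `p < 2m/(m-1)`. There is a constant `C` such that for all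
integrable functions `f` in the class `Data m` one has `∫ |S^δ f|^p ≤ C ∫ |f|^p`. -/
theorem result (m : ℕ) (hm : 2 ≤ m) (δ p : ℝ) (hδ : 0 < δ) (hp : 2 ≤ p) (hp4 : p ≤ 4)
    (hpm : p < 2 * (m : ℝ) / ((m : ℝ) - 1)) :
    ∃ C : ℝ, 0 < C ∧ ∀ f : E (m + 2) → ℂ, Integrable f → Data m f →
      ∫⁻ z, ‖bochnerRiesz δ f z‖ₑ ^ p ≤ ENNReal.ofReal C * ∫⁻ z, ‖f z‖ₑ ^ p := by
  have hTBP : Pool.Agent.TH280.BR.S_TBP := Pool.Agent.TH228.TBP.tbp_thm
    Pool.Agent.TH828.TB2.tb2_thm (Pool.Agent.TH543.TB4.tb4_thm Pool.Agent.V11293.CS.pl)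
  have hCLR : Pool.Agent.TH280.LS.S_CLR :=
    Pool.Agent.TH554.CLR.clr_thm Pool.Agent.TH883.BALL.ball_thm
  obtain ⟨C2, hC2, hcl⟩ := hCLR m p hm hp hpm
  have hm0 : 0 < m := by omega
  have hne : ∀ᵐ η : Fin m → ℝ, Pool.Agent.TH280.LS.nr η ^ m ≠ 0 := by
    have : Nonempty (Fin m) := ⟨⟨0, by omega⟩⟩
    have h0 : ∀ᵐ η : Fin m → ℝ, η ≠ 0 := by
      rw [ae_iff]
      have h1 : {a : Fin m → ℝ | ¬ a ≠ 0} = {0} := by ext; simp
      rw [h1]
      exact measure_singleton 0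
    filter_upwards [h0] with η hη
    refine pow_ne_zero m ?_
    unfold Pool.Agent.TH280.LS.nr
    intro h
    apply hη
    rw [Real.sqrt_eq_zero (Finset.sum_nonneg fun i _ => sq_nonneg _)] at h
    funext i
    have h2 := (Finset.sum_eq_zero_iff_of_nonneg (fun i _ => sq_nonneg (η i))).1 h i
      (Finset.mem_univ i)
    simpa using h2
  have hmeas : Measurable (fun η : Fin m → ℝ => Pool.Agent.TH280.LS.nr η ^ m) := by
    unfold Pool.Agent.TH280.LS.nr
    fun_prop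
  obtain ⟨C, hC, h⟩ := Pool.Agent.TH280.BR.br_gen hTBP m
    (fun η => Pool.Agent.TH280.LS.nr η ^ m) δ p C2 hmeas
    (fun η => pow_nonneg (Real.sqrt_nonneg _) m) hne (Pool.Agent.TH883.E4R.e4r_thm m hm0) hδ hp
    hp4 hC2
  refine ⟨C, hC, fun f hf hd => ?_⟩
  refine h f hf ?_
  obtain ⟨v, b, c, F, hF, hfz⟩ := hd
  refine ⟨v.repr, fun w => b (Pool.Agent.TH280.BR.Zb m w).1 *
    ((F (Pool.Agent.TH280.BR.Zb m w).1 (Pool.Agent.TH280.LS.nr
      ((Pool.Agent.TH280.BR.Zb m w).2 - c (Pool.Agent.TH280.BR.Zb m w).1)) : ℝ) : ℂ), ?_, ?_⟩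
  · intro z
    rw [hfz z]
    have h4 : Pool.Agent.TH280.BR.Zb m (v.repr z) =
        (((⟪v (Fin.last (m + 1)), z⟫ : ℝ), (⟪v (Fin.last m).castSucc, z⟫ : ℝ)),
          fun i => (⟪v i.castSucc.castSucc, z⟫ : ℝ)) := by
      rw [Pool.Agent.TH280.BR.Zb_apply]
      simp only [OrthonormalBasis.repr_apply_apply]
    beta_reduce
    rw [h4]
    rfl
  · intro x hx
    simp only [MeasurableEquiv.apply_symm_apply] at hx ⊢
    exact hcl (b x) (c x) (F x) (hF x) hx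

end Pool.Agent.Results.MP_ee74d2_an.BochnerRieszRadialSlices
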