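import Pool.Agent.V11293.CS.B
import Pool.Agent.TH218.BRS.Main
import Pool.Agent.TH228.BRM_TBP
import Pool.Agent.TH828.BRM_TB2
import Pool.Agent.TH543.BRM_TB4
import Pool.Agent.TH883.LS.LSB_E4R
set_option autoImplicit false

/-! # The Bochner-Riesz estimate for functions with isoperimetric slices

The local smoothing estimate of Q1 implies the Bochner-Riesz conjecture in the same dimension. This
file proves the Bochner-Riesz estimate in dimension `n = m + 2 ≥ 3` for all `δ > 0` and all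
`2 < p ≤ 4` with `(n-3)(p-2) < 1` (for `n = 3, 4` this contains `2 < p ≤ 2n/(n-1)`, the critical
range of the conjecture, and for `n = 5` all `2 < p < 2n/(n-1)`), for all functions whose slices
by the `(n-2)`-planes parallel to a fixed one are multiples of functions with superlevel sets `S`
of isoperimetric type: `perimeter(S)^(n-2) ≤ N |S|^(n-3)`.
-/

open MeasureTheory Set
open scoped ENNReal FourierTransform RealInnerProductSpace

namespace Pool.Agent.Results.MP_ee74d2_an.BochnerRieszRegularSlices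

/-- `ℝ^n` -/
abbrev E (n : ℕ) : Type := EuclideanSpace ℝ (Fin n)

/-- The Bochner-Riesz mean of order `δ`: the inverse Fourier transform of
`(1 - |ζ|²)_+^δ f^(ζ)`. -/
noncomputable def bochnerRiesz {n : ℕ} (δ : ℝ) (f : E n → ℂ) (z : E n) : ℂ :=
  ∫ ζ : E n, Complex.exp (((2 * Real.pi * ⟪z, ζ⟫ : ℝ) : ℂ) * Complex.I) *
    ((((max (1 - ‖ζ‖ ^ 2) 0) ^ δ : ℝ) : ℂ) * 𝓕 f ζ)

/-- The perimeter (total variation of the indicator function) of a set `S` in `ℝ^m`: the least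
upper bound of `|{y : exactly one of y, y + h is in S}| / |h|`. -/
noncomputable def perimeter {m : ℕ} (S : Set (Fin m → ℝ)) : ℝ≥0∞ :=
  ⨆ h : Fin m → ℝ, volume {y : Fin m → ℝ | ¬(y + h ∈ S ↔ y ∈ S)} /
    ENNReal.ofReal (Real.sqrt (∑ i, h i ^ 2))

/-- Complex functions on `ℝ^m` with superlevel sets of isoperimetric type: for `c = 1, -1, i, -i`
and all `l > 0` the set `S = {y : l < Re (c F(y))}` is null measurable and satisfies
`perimeter(S)^m ≤ N |S|^(m-1)`. -/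
def Isoperimetric {m : ℕ} (N : ℝ) (F : (Fin m → ℝ) → ℂ) : Prop :=
  ∀ c ∈ ({1, -1, Complex.I, -Complex.I} : Set ℂ), ∀ l : ℝ, 0 < l →
    NullMeasurableSet {y | l < (c * F y).re} ∧
    perimeter {y | l < (c * F y).re} ^ m ≤
      ENNReal.ofReal N * volume {y | l < (c * F y).re} ^ (m - 1)

/-- The class of functions on `ℝ^(m+2)`: for some orthonormal basis `v_0, …, v_{m+1}`, with
`x = (⟨v_{m+1}, z⟩, ⟨v_m, z⟩)` and `y_i = ⟨v_i, z⟩` for `i < m`, one has `f(z) = b(x) F(x, y)`,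
where `b` is any complex function of two variables, and `F(x, ·)` is isoperimetric for all `x`. -/
def Data (m : ℕ) (N : ℝ) (f : E (m + 2) → ℂ) : Prop :=
  ∃ (v : OrthonormalBasis (Fin (m + 2)) ℝ (E (m + 2))) (b : ℝ × ℝ → ℂ)
    (F : ℝ × ℝ → (Fin m → ℝ) → ℂ), (∀ x, Isoperimetric N (F x)) ∧
    ∀ z, f z = b ((⟪v (Fin.last (m + 1)), z⟫ : ℝ), (⟪v (Fin.last m).castSucc, z⟫ : ℝ)) *
      F ((⟪v (Fin.last (m + 1)), z⟫ : ℝ), (⟪v (Fin.last m).castSucc, z⟫ : ℝ))
        (fun i => (⟪v i.castSucc.castSucc, z⟫ : ℝ))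

/-- the perimeter is the total variation of the library -/
lemma perimeter_eq {m : ℕ} {S : Set (Fin m → ℝ)} (hS : NullMeasurableSet S) :
    Pool.Agent.TH218.BRS.vrm (S.indicator 1) = perimeter S := by
  unfold Pool.Agent.TH218.BRS.vrm perimeter
  refine iSup_congr fun h => ?_
  have h1 : NullMeasurableSet {y : Fin m → ℝ | ¬(y + h ∈ S ↔ y ∈ S)} := by
    have h2 : NullMeasurableSet ((fun y : Fin m → ℝ => y + h) ⁻¹' S) :=
      hS.preimage (measurePreserving_add_right volume h).quasiMeasurePreserving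
    have h3 : {y : Fin m → ℝ | ¬(y + h ∈ S ↔ y ∈ S)} =
        (((fun y : Fin m → ℝ => y + h) ⁻¹' S) \ S) ∪ (S \ ((fun y : Fin m → ℝ => y + h) ⁻¹' S)) := by
      ext y
      simp only [mem_setOf_eq, mem_union, mem_diff, mem_preimage]
      tauto
    rw [h3]
    exact (h2.diff hS).union (hS.diff h2)
  have h4 : (∫⁻ y : Fin m → ℝ, ‖(S.indicator (1 : (Fin m → ℝ) → ℂ)) (y + h) -
      (S.indicator (1 : (Fin m → ℝ) → ℂ)) y‖ₑ) = volume {y : Fin m → ℝ | ¬(y + h ∈ S ↔ y ∈ S)} := by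
    rw [← lintegral_indicator_one₀ h1]
    refine lintegral_congr fun y => ?_
    by_cases ha : y + h ∈ S <;> by_cases hb : y ∈ S <;> simp [indicator, ha, hb]
  rw [h4]
  rfl

/-- **The Bochner-Riesz estimate for functions with isoperimetric slices.** Let `n = m + 2 ≥ 3`,
`δ > 0`, `2 < p ≤ 4`, `(m-1)(p-2) < 1` and `N > 0`. There is a constant `C` such that for all
integrable functions `f` in the class `Data m N` one has `∫ |S^δ f|^p ≤ C ∫ |f|^p`. -/
theorem result (m : ℕ) (hm : 1 ≤ m) (δ p N : ℝ) (hδ : 0 < δ) (hp : 2 < p) (hp4 : p ≤ 4)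
    (hpm : ((m : ℝ) - 1) * (p - 2) < 1) (hN : 0 < N) :
    ∃ C : ℝ, 0 < C ∧ ∀ f : E (m + 2) → ℂ, Integrable f → Data m N f →
      ∫⁻ z, ‖bochnerRiesz δ f z‖ₑ ^ p ≤ ENNReal.ofReal C * ∫⁻ z, ‖f z‖ₑ ^ p := by
  have hTBP : Pool.Agent.TH280.BR.S_TBP := Pool.Agent.TH228.TBP.tbp_thm
    Pool.Agent.TH828.TB2.tb2_thm (Pool.Agent.TH543.TB4.tb4_thm Pool.Agent.V11293.CS.pl)
  obtain ⟨C, hC, h⟩ := Pool.Agent.TH218.BRS.br_L hTBP Pool.Agent.TH883.E4R.e4r_thm m hm δ p N hδ
    hp hp4 hpm hN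
  refine ⟨C, hC, fun f hf hd => ?_⟩
  refine h f hf ?_
  obtain ⟨v, b, F, hF, hfz⟩ := hd
  refine ⟨v.repr, b, F, ?_, ?_⟩
  · intro x c hc l hl
    obtain ⟨h1, h2⟩ := hF x c hc l hl
    rw [perimeter_eq h1]
    exact h2
  · intro z
    rw [hfz z]
    have h4 : Pool.Agent.TH280.BR.Zb m (v.repr z) =
        (((⟪v (Fin.last (m + 1)), z⟫ : ℝ), (⟪v (Fin.last m).castSucc, z⟫ : ℝ)),
          fun i => (⟪v i.castSucc.castSucc, z⟫ : ℝ)) := by
      rw [Pool.Agent.TH280.BR.Zb_apply]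
      simp only [OrthonormalBasis.repr_apply_apply]
    rw [h4]

end Pool.Agent.Results.MP_ee74d2_an.BochnerRieszRegularSlices
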